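import Pool.Agent.W206.CU.Pole

/-!
# The strong form of Igusa's monodromy conjecture reduces to cubics `∑ t_j q_j(x)`

Fix a prime `p`. If, for all polynomials `∑_j t_j q_j(x) ∈ ℤ[x, t]` with `q_j` of degree at most
two and with coefficients `0`, `1`, `-1`, the real parts of the poles of Igusa's Poincaré series
(at `p`) are roots of the Bernstein-Sato polynomial, then the same holds for all polynomials over
`ℤ`.

The proof attaches to every non-zero `f` and all large `m` such a cubic `g`, obtained from `u f` by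
`m` moves `F ↦ F + (y - a)(t + e)` with new variables `y`, `t`, which replace a product `a = x_i x_j`
in a monomial `a e` of `F` by the new variable `y`. Then, for every prime `p`,
`(1 - T / p) P_g(T) = 1 / p + (1 - 1 / p) P_f(T / p ^ m)`, and `b_g(s)` divides
`(s + 1) b_f(s + m)`.
-/

set_option autoImplicit false

namespace Pool.Agent.Results.MP_5d9b3c_ag.CubicReduction

open MvPolynomial
open Pool.Agent.H628R4.TP (IsBFunction IsBernsteinSatoOf)
open Pool.Agent.W206.CU

/-- The assertion for `F` at `p`: for every pole `T₀` of Igusa's Poincaré series, the number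
`t₀ = - log |T₀| / log p` is a zero of the Bernstein-Sato polynomial of `F`. -/
def DenefAt (p : ℕ) {ρ : Type} (F : MvPolynomial ρ ℤ) : Prop :=
  ∀ b : Polynomial ℂ, IsBernsteinSatoOf (toC F) b →
    ∀ (T₀ : ℂ) (r : ℕ), 0 < r → IsPoleOfOrder (poincare p F) T₀ r →
      b.eval (((-Real.log ‖T₀‖ / Real.log p : ℝ)) : ℂ) = 0

theorem denefAt_iso (p : ℕ) {ρ ρ' : Type} [Finite ρ] [Finite ρ']
    (e : MvPolynomial ρ ℤ ≃ₐ[ℤ] MvPolynomial ρ' ℤ) {F : MvPolynomial ρ ℤ}
    (h : DenefAt p (e F)) : DenefAt p F := by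
  intro b hb T₀ r hr hP
  rw [← poincare_iso p e] at hP
  refine h b ?_ T₀ r hr hP
  apply isBernsteinSatoOf_iso (isoC e).symm
  rw [← isoC_toC, AlgEquiv.symm_apply_apply]
  exact hb

theorem result (p : ℕ) [Fact p.Prime] :
    (∀ (n : ℕ) (f : MvPolynomial (Fin n) ℤ), (∀ c : ℤ, f ≠ C c) → DenefAt p f) ↔
    (∀ (n k : ℕ) (q : Fin k → MvPolynomial (Fin n) ℤ), (∀ j, (q j).totalDegree ≤ 2) →
      (∀ j d, (q j).coeff d = 0 ∨ (q j).coeff d = 1 ∨ (q j).coeff d = -1) →
      (∀ c : ℤ, quadSum q ≠ C c) → DenefAt p (quadSum q)) := by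
  constructor
  · intro h n k q _ _ hq
    apply denefAt_iso p (renameEquiv ℤ finSumFinEquiv)
    apply h
    intro c hc
    apply hq c
    have h1 := congrArg (renameEquiv ℤ finSumFinEquiv).symm hc
    rwa [AlgEquiv.symm_apply_apply, ← algebraMap_eq, AlgEquiv.commutes, algebraMap_eq] at h1
  · intro h n f hf b hb T₀ r hr hP
    have hp : p.Prime := Fact.out
    have hp0 : (p : ℂ) ≠ 0 := by exact_mod_cast hp.ne_zero
    have hlog : Real.log p ≠ 0 :=
      (Real.log_pos (by exact_mod_cast hp.one_lt)).ne'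
    have hf0 : f ≠ 0 := by
      have := hf 0
      rwa [map_zero] at this
    set t₀ : ℝ := -Real.log ‖T₀‖ / Real.log p with ht₀
    obtain ⟨N, hN⟩ := exists_nat_gt (t₀ + 1)
    obtain ⟨n', k, m, q, hNm, hq, hco, hfol⟩ := exists_follow f hf0 N
    obtain ⟨b', hb', hmul⟩ := exists_bernsteinSato hfol hb
    have hs : ((p : ℂ)⁻¹) ^ m ≠ 0 := pow_ne_zero _ (inv_ne_zero hp0)
    have hd : (1 : ℂ) - (p : ℂ)⁻¹ ≠ 0 := by
      rw [sub_ne_zero]
      intro h1
      have h2 : (p : ℂ) = 1 := by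
        rw [← inv_inv (p : ℂ), ← h1, inv_one]
      exact hp.one_lt.ne' (by exact_mod_cast h2)
    obtain ⟨r', hrr', hP'⟩ := pole_transfer (inv_ne_zero hp0) hs hd (poincare_eq hfol p) hr hP
    have hT : T₀ ≠ 0 := pole_ne_zero hr hP
    have h1 := h n' k q hq hco hfol.2.2 b' hb' _ r' (by omega) hP'
    have h2 : (-Real.log ‖T₀ / ((p : ℂ)⁻¹) ^ m‖ / Real.log p : ℝ) = t₀ - m := by
      rw [norm_div, norm_pow, norm_inv, Complex.norm_natCast,
        Real.log_div (norm_ne_zero_iff.2 hT)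
          (pow_ne_zero _ (inv_ne_zero (by exact_mod_cast hp.ne_zero))),
        Real.log_pow, Real.log_inv, ht₀]
      field_simp
      ring
    rw [h2] at h1
    have h3 : ((t₀ - m : ℝ) : ℂ) ≠ -1 := by
      intro h4
      have h5 : t₀ - m = -1 := by exact_mod_cast h4
      have h6 : (N : ℝ) ≤ m := by exact_mod_cast hNm
      linarith
    have h4 := hmul _ h3
    have h5 : 0 < b'.rootMultiplicity (((t₀ - m : ℝ)) : ℂ) :=
      (Polynomial.rootMultiplicity_pos hb'.1.ne_zero).2 h1
    have h6 := (Polynomial.rootMultiplicity_pos hb.1.ne_zero).1 (lt_of_lt_of_le h5 h4)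
    rw [Polynomial.IsRoot.def] at h6
    have h7 : ((t₀ - m : ℝ) : ℂ) + (m : ℂ) = (t₀ : ℂ) := by
      rw [Complex.ofReal_sub, Complex.ofReal_natCast, sub_add_cancel]
    rw [h7] at h6
    exact h6

end Pool.Agent.Results.MP_5d9b3c_ag.CubicReduction
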