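import Mathlib
import Pool.Agent.W425.BF.Main

/-!
# Poles of Igusa's Poincaré series for generic integral coefficients

Let `f = ∑_j c_j x ^ (v j) + h`, where `h ∈ ℤ[x_1, …, x_n]` is an ARBITRARY polynomial whose exponents
lie in the Newton polyhedron of the `v j ≠ 0`, and only the integral coefficients `c_j` (for instance
at the vertices of the Newton polyhedron of `f`) are generic: `g(c) ≠ 0` for a certain nonzero
polynomial `g`. `B1`-facets of the Newton polyhedron are allowed: for every candidate pole
`- |a| / N_a ≠ -1` either one of its facets is not a `B1`-facet, or all of them are `B1` in a common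
direction. Then for almost all primes `p` and for every pole `T₀` of Igusa's Poincaré series of `f`,
the number `t₀ = - log |T₀| / log p` is a root of the Bernstein-Sato polynomial of `f`.

Method. If the `c_j` are algebraically independent over `ℚ`, then the candidate poles of the rays `a`
with `NonB v False a` are roots of `b_f`: the functional equation of `b_f` gives an algebraic relation, and functionals (one for every
facet) are applied to it. Now `s - α` divides `b_f` if and only if there is no identity
`f ^ s = P(s) f ^ (s + 1) + (s - α) Q(s) f ^ s`. Gröbner bases in the Weyl algebra over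
`ℚ(c_1, …, c_r)`, spread out over `ℚ[c_1, …, c_r, 1 / g]`, show that such an identity for one member of
the family with `g(c) ≠ 0` gives one for the generic member. So for `g(c) ≠ 0` these candidate poles
are roots, and `f` is nondegenerate; for nondegenerate `f` the real part of every pole of the zeta
function is `-1` or `- |a| / N_a` for a facet `a`, for almost all `p`. Poles of the Poincaré series are
poles of the zeta function; `T₀ = 1` is not a pole as `{f = 0}` has measure zero.
For a direction `i`, the rays which are `B1` in the direction `i` are not poles: for the vertex `v j0`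
with exponent `1` of `x_i` the lattice points of a polyhedron `P_{j0}`, a neighbourhood of these rays,
are summed along the fibres in the direction `i`, which replaces the weight by a linear one (this is
the change of the variable `x_i` which makes `f` a monomial times `x_i`); the extreme rays of `P_{j0}`
are not `B1` in the direction `i`. New rays of the cells outside the `P_{j0}` are removed by a
one-parameter deformation of the weights: the denominators `1 - p ^ (-|a|) z ^ ⟨c, a⟩ t ^ N_a` in
`ℂ[z][t]` of two different rays are relatively prime.
-/

set_option autoImplicit false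

namespace Pool.Agent.Results.MP_5d9b3c_ag.GenericCoefficientsB1

open Pool.Agent.W425.MM Pool.Agent.W206.CU

/-- **Denef's question on the poles of Igusa's Poincaré series for the polynomials
`f = ∑_j c_j x ^ (v j) + h` over `ℤ` with generic coefficients `c_j`, `B1`-facets in a common direction
allowed, for almost all `p`.**

`spa v c` is the polynomial `∑_j c_j x ^ (v j)`. `NP v w` says that `w` is in the Newton polyhedron
`conv {v j} + ℝ_{≥ 0} ^ n`.

`Hyp v h` says that for every ray `a` of the normal fan of the Newton polyhedron (`IsRay v a`)
with `N_a := gord v a = min_j ⟨a, v j⟩ > 0` one of the following holds: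
* `|a| = N_a` (the candidate pole is `-1`);
* `|a| / N_a = |a'| / N_{a'}` for some `a' ∈ ℕ ^ n` with `N_{a'} > 0` and `NonB v False a'`: there is a
  set `J` of `#{i | a' i ≠ 0}` elements with `⟨a', v j⟩ = N_{a'}` for `j ∈ J` such that the vectors
  `(v j i)_{a' i ≠ 0}`, `j ∈ J`, are linearly independent and such that no variable `x_i` with
  `a' i ≠ 0` occurs in exactly one of the monomials `x ^ (v j)`, `j ∈ J`, and there with exponent `1`;
* there is a variable `x_i` such that all the rays `a'` with `N_{a'} > 0` and
  `|a'| / N_{a'} = |a| / N_a` are B1 in the direction `i` (`BD v h i a'`): `a' i ≠ 0`, and among the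
  monomials of the face of `a'` (the `x ^ (v j)` and the monomials of `h` of minimal `a'`-weight
  `N_{a'}`) exactly one is divisible by `x_i`; this one is some `x ^ (v j0)` with `v j0 i = 1`
  (it may also occur in `h`).

`poincare p f = ∑_m a_m (p ^ (-n) T) ^ m`, `a_m` the number of zeros of `f` modulo `p ^ m`.
`IsPoleOfOrder P T₀ m`, `m > 0`, says that `P = A / ((T - T₀) ^ m B)` with polynomials `A`, `B` which do
not vanish at `T₀`: the rational function `P` has a pole of order `m` at `T₀`. `IsBFunction f b` says
that `b(s) f ^ s = P(s) f ^ (s + 1)` for a differential operator `P(s)` in the Weyl algebra, polynomial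
in `s`; the Bernstein-Sato polynomial `b_f` is one of these polynomials `b`. -/
theorem result {n r : ℕ} (hr : 0 < r) (v : Fin r → Fin n → ℕ) (hv : Function.Injective v)
    (hv0 : ∀ j, v j ≠ 0) (h : MvPolynomial (Fin n) ℤ)
    (hh : ∀ w ∈ h.support, Pool.Agent.W425.SV.NP v w) (hB : Pool.Agent.W425.BF.Hyp v h) :
    ∃ g : MvPolynomial (Fin r) ℚ, g ≠ 0 ∧
      ∀ c : Fin r → ℤ, MvPolynomial.eval (fun j => (c j : ℚ)) g ≠ 0 →
      ∃ S : Finset ℕ, ∀ p : ℕ, p.Prime → p ∉ S →
        ∀ (T₀ : ℂ) (m : ℕ), 0 < m →
        IsPoleOfOrder (poincare p (Pool.Agent.W425.ND.spa v c + h)) T₀ m →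
        ∀ b : Polynomial ℂ, Pool.Agent.H628R4.TP.IsBFunction
          (MvPolynomial.map (Int.castRingHom ℂ) (Pool.Agent.W425.ND.spa v c + h)) b →
        b.eval ((-Real.log ‖T₀‖ / Real.log p : ℝ) : ℂ) = 0 :=
  Pool.Agent.W425.BF.gen_poincareB Pool.Agent.W425.BF.fct Pool.Agent.W425.BF.cnt
    Pool.Agent.W425.BF.comb Pool.Agent.W195.PZ.null hr v hv hv0 h hh hB

end Pool.Agent.Results.MP_5d9b3c_ag.GenericCoefficientsB1
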