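import Pool.Agent.W427.SMC.Poin4

set_option autoImplicit false

/-! Poles of Igusa's Poincare series and roots of the Bernstein-Sato polynomial, for every prime
`p`, for products of powers of sparse polynomials with private variables. -/

namespace Pool.Agent.Results.MP_5d9b3c_ag.PoincareSparseProducts

open MvPolynomial Pool.Agent.W427.SMC Pool.Agent.H628R4.TP

/-- Let `f = ∏_i x_i ^ (a i) * ∏_k (∑_j c_{k,j} y_{k,j} ^ (m_{k,j}) ∏_i x_i ^ (v_{k,j,i})) ^ (N_k)`,
with nonzero integers `c_{k,j}` and `m_{k,j}, N_k ≥ 1`. Let `p` be any prime and let `b ≠ 0` satisfy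
a functional equation `b(s) f ^ s = P(s) f ^ (s + 1)`, for instance `b = b_f`. Then the Poincare
series of `f` is the expansion at `0` of a rational function `Φ`, and for every complex `T₀` the
order of the pole of `Φ` at `T₀`, that is, the multiplicity of `T₀` as a root of the reduced
denominator of `Φ`, is at most the multiplicity of `t₀ = -log |T₀| / log p` as a root of `b`. -/
theorem result {ι κ : Type} [Fintype ι] [Fintype κ] {J : κ → Type} [∀ k, Fintype (J k)]
    [∀ k, Nonempty (J k)] (a : ι → ℕ) (N : κ → ℕ) (hN : ∀ k, 0 < N k)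
    (c : (k : κ) → J k → ℤ) (hc : ∀ k j, c k j ≠ 0)
    (m : (k : κ) → J k → ℕ) (hm : ∀ k j, 0 < m k j) (v : (k : κ) → J k → ι → ℕ)
    (p : ℕ) [Fact p.Prime]
    (b : Polynomial ℂ) (hb0 : b ≠ 0)
    (hb : IsBFunction (map (Int.castRingHom ℂ) (sparseProd a N c m v)) b) :
    ∃ Φ : RatFunc ℂ,
      ((Φ.denom : Polynomial ℂ) : PowerSeries ℂ) * poincare p (sparseProd a N c m v) =
        ((Φ.num : Polynomial ℂ) : PowerSeries ℂ) ∧
      ∀ T₀ : ℂ, Φ.denom.rootMultiplicity T₀ ≤
        b.rootMultiplicity ((-Real.log ‖T₀‖ / Real.log p : ℝ) : ℂ) := by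
  classical
  exact main_poincare a N c m v p hc hm hN (fun _ => inferInstance) b hb0 hb

end Pool.Agent.Results.MP_5d9b3c_ag.PoincareSparseProducts
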