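import Pool.Agent.W422.SM.Fin

/-!
# Poles of Igusa's Poincare series, for every prime

Denef's question asks whether, for every non-constant `f ∈ ℤ[x_1, …, x_n]`, every prime `p` and
every pole `T₀` of the Poincare series `P_{f,p}(T) = ∑_m a_{p,m} (p ^ (-n) T) ^ m`, the number
`t₀ = - log |T₀| / log p` is a root of the Bernstein-Sato polynomial of `f`.

We prove this, for EVERY prime `p` (no prime is excluded, also those for which `f` is degenerate
modulo `p` or has coefficients divisible by `p`), for all polynomials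

  `f = x ^ A * (∑_{j} c_j x ^ (m_j)) ^ e`,

where the `c_j` (at least two) are nonzero integers, `e ≥ 1`, and the exponent vectors `m_j` are
affinely independent, provided that every variable `x_i` which does not divide `f` through `x ^ A`
has exponents `m_{j,i} ≠ 1` for all `j`.

Examples: `x ^ a + y ^ b` and all binomials, `x ^ a + y ^ b + z ^ c` and all Brieskorn-Pham
polynomials with exponents `≥ 2`, `x ^ 2 y ^ 3 + y ^ 2 z ^ 3 + z ^ 5` (non-isolated singularities,
chains, loops), times any monomial, to any power.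
-/

set_option autoImplicit false

namespace Pool.Agent.Results.MP_5d9b3c_ag.SparseEveryPrime

open Pool.Agent.W422.SM

/-- For `f = x ^ A * (∑_j c_j x ^ (m_j)) ^ e` as above and every prime `p`:

* the Poincare series `poincare f p` is a rational function;
* for every pole `T₀` of it, `- log |T₀| / log p` is a root of every polynomial `b` which satisfies
  a functional equation `b(s) f ^ s = P(s) f ^ (s + 1)`, `P(s)` in the Weyl algebra over `ℂ` with
  `s` adjoined, in particular of the Bernstein-Sato polynomial of `f`. -/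
theorem result {n k : ℕ} (A : Fin n → ℕ) (m : Fin k → Fin n → ℕ) (c : Fin k → ℤ) (e : ℕ)
    (hm : AffineIndependent ℚ (fun (j : Fin k) (i : Fin n) => (m j i : ℚ)))
    (hc : ∀ j, c j ≠ 0) (hk : 2 ≤ k) (he : 0 < e) (hA : ∀ i, A i ≠ 0 ∨ ∀ j, m j i ≠ 1)
    (f : MvPolynomial (Fin n) ℤ)
    (hf : f = (∏ i, MvPolynomial.X i ^ A i) *
      (∑ j, MvPolynomial.C (c j) * ∏ i, MvPolynomial.X i ^ m j i) ^ e)
    (p : ℕ) (hp : p.Prime) :
    (∃ P Q : Polynomial ℂ, P ≠ 0 ∧
      (P : PowerSeries ℂ) * poincare f p = (Q : PowerSeries ℂ)) ∧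
    ∀ T₀ : ℂ, IsPole (poincare f p) T₀ →
      ∀ b : Polynomial ℂ, Pool.Agent.H628R4.TP.IsBFunction
        (MvPolynomial.map (algebraMap ℤ ℂ) f) b →
      b.eval ((-Real.log ‖T₀‖ / Real.log p : ℝ) : ℂ) = 0 := by
  have : Fact p.Prime := ⟨hp⟩
  subst hf
  exact poincare_main (p := p) A m c e hm hc hk he hA

end Pool.Agent.Results.MP_5d9b3c_ag.SparseEveryPrime
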